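import Mathlib

/-!
# Perfect `s`-bases in finite abelian groups do not exist for `s ≥ 2`, `m ≥ 2`
-/

set_option autoImplicit false

open Finset

namespace Pool.Agent.Results.MP_acd90d_co.NoPerfectBases

/-- Integer vectors of length `m` whose positive part has sum at most `b` and whose negative part
has sum at most `c`, built one coordinate at a time. -/
noncomputable def D : (m : ℕ) → ℕ → ℕ → Finset (Fin m → ℤ)
  | 0, _, _ => univ
  | m + 1, b, c => (Icc (-(c : ℤ)) (b : ℤ)).biUnion
      (fun x => (D m (b - x.toNat) (c - (-x).toNat)).image (Fin.cons x))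

theorem mem_D (m : ℕ) : ∀ (b c : ℕ) (f : Fin m → ℤ),
    f ∈ D m b c ↔ (∑ i, (f i).toNat ≤ b ∧ ∑ i, (- f i).toNat ≤ c) := by
  induction m with
  | zero =>
    intro b c f
    simp [D]
    exact Subsingleton.elim _ _
  | succ m ih =>
    intro b c f
    unfold D
    rw [mem_biUnion]
    constructor
    · rintro ⟨x, hx, hf⟩
      rw [mem_image] at hf
      obtain ⟨g, hg, rfl⟩ := hf
      rw [ih] at hg
      rw [mem_Icc] at hx
      rw [Fin.sum_univ_succ, Fin.sum_univ_succ]
      simp only [Fin.cons_zero, Fin.cons_succ]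
      constructor <;> omega
    · rintro ⟨h1, h2⟩
      rw [Fin.sum_univ_succ] at h1 h2
      refine ⟨f 0, ?_, ?_⟩
      · rw [mem_Icc]
        constructor <;> omega
      · rw [mem_image]
        refine ⟨fun i => f i.succ, ?_, ?_⟩
        · rw [ih]
          constructor <;> omega
        · exact Fin.cons_self_tail f

theorem card_D_succ (m b c : ℕ) :
    (D (m + 1) b c).card =
      ∑ x ∈ Icc (-(c : ℤ)) (b : ℤ), (D m (b - x.toNat) (c - (-x).toNat)).card := by
  have h : D (m + 1) b c = (Icc (-(c : ℤ)) (b : ℤ)).biUnion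
      (fun x => (D m (b - x.toNat) (c - (-x).toNat)).image (Fin.cons x)) := rfl
  rw [h, card_biUnion]
  · apply sum_congr rfl
    intro x _
    apply card_image_of_injective
    intro f g hfg
    exact (Fin.cons_inj.mp hfg).2
  · intro x _ y _ hxy
    rw [Function.onFun, disjoint_left]
    intro f hf hg
    rw [mem_image] at hf hg
    obtain ⟨f', -, rfl⟩ := hf
    obtain ⟨g', -, h⟩ := hg
    exact hxy ((Fin.cons_inj.mp h).1).symm

theorem sum_split (b c : ℕ) (F : ℤ → ℕ) :
    ∑ x ∈ Icc (-(c : ℤ)) (b : ℤ), F x =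
      ∑ x ∈ range (b + 1), F (x : ℤ) + ∑ y ∈ range c, F (-((y : ℤ) + 1)) := by
  have h1 : Icc (-(c : ℤ)) (b : ℤ) =
      (range (b + 1)).image (fun x : ℕ => (x : ℤ)) ∪
        (range c).image (fun y : ℕ => -((y : ℤ) + 1)) := by
    ext x
    rw [mem_Icc, mem_union, mem_image, mem_image]
    constructor
    · rintro ⟨h1, h2⟩
      rcases le_or_gt 0 x with h | h
      · left
        exact ⟨x.toNat, by rw [mem_range]; omega, by omega⟩
      · right
        exact ⟨(-x).toNat - 1, by rw [mem_range]; omega, by omega⟩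
    · rintro (⟨y, hy, rfl⟩ | ⟨y, hy, rfl⟩)
      · rw [mem_range] at hy
        constructor <;> omega
      · rw [mem_range] at hy
        constructor <;> omega
  rw [h1, sum_union, sum_image, sum_image]
  · intro x _ y _ h
    have h' : -((x : ℤ) + 1) = -((y : ℤ) + 1) := h
    omega
  · intro x _ y _ h
    have h' : (x : ℤ) = (y : ℤ) := h
    omega
  · rw [disjoint_left]
    intro x hx hy
    rw [mem_image] at hx hy
    obtain ⟨u, -, rfl⟩ := hx
    obtain ⟨v, -, hv⟩ := hy
    omega

theorem card_D_succ' (m b c : ℕ) :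
    (D (m + 1) b c).card =
      ∑ x ∈ range (b + 1), (D m (b - x) c).card + ∑ y ∈ range c, (D m b (c - (y + 1))).card := by
  rw [card_D_succ, sum_split]
  refine congrArg₂ (· + ·) ?_ ?_
  · apply sum_congr rfl
    intro x _
    have h1 : ((x : ℤ)).toNat = x := by omega
    have h2 : (-(x : ℤ)).toNat = 0 := by omega
    rw [h1, h2, Nat.sub_zero]
  · apply sum_congr rfl
    intro y _
    have h1 : (-((y : ℤ) + 1)).toNat = 0 := by omega
    have h2 : (- -((y : ℤ) + 1)).toNat = y + 1 := by omega
    rw [h1, h2, Nat.sub_zero]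

/-- The hockey stick identity. -/
theorem hockey (m s : ℕ) : ∑ k ∈ range (s + 1), (m + k).choose m = (m + 1 + s).choose (m + 1) := by
  induction s with
  | zero => simp
  | succ s ih =>
    rw [sum_range_succ, ih]
    rw [show m + 1 + (s + 1) = (m + 1 + s) + 1 by ring, Nat.choose_succ_succ,
      show m + (s + 1) = m + 1 + s by ring]
    ring

theorem reflect_sum (m b c : ℕ) :
    ∑ x ∈ range (b + 1), (m + (b - x) + c).choose m = ∑ k ∈ range (b + 1), (m + (c + k)).choose m := by
  rw [← sum_range_reflect]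
  apply sum_congr rfl
  intro k hk
  rw [mem_range] at hk
  congr 1
  omega

theorem reflect_sum' (m b c : ℕ) :
    ∑ y ∈ range c, (m + b + (c - (y + 1))).choose m = ∑ k ∈ range c, (m + (b + k)).choose m := by
  rw [← sum_range_reflect]
  apply sum_congr rfl
  intro k hk
  rw [mem_range] at hk
  congr 1
  omega

theorem total (m b c : ℕ) :
    ∑ k ∈ range c, (m + k).choose m + ∑ k ∈ range (b + 1), (m + (c + k)).choose m =
      (m + 1 + b + c).choose (m + 1) := by
  rw [← sum_range_add (fun k => (m + k).choose m) c (b + 1),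
    show c + (b + 1) = (b + c) + 1 by ring, hockey]
  congr 1
  omega

theorem card_D_zero (m : ℕ) : ∀ b : ℕ, (D m b 0).card = (m + b).choose m := by
  induction m with
  | zero => intro b; simp [D]
  | succ m ih =>
    intro b
    rw [card_D_succ']
    simp only [range_zero, sum_empty, add_zero]
    rw [sum_congr rfl (fun x _ => ih (b - x))]
    have := reflect_sum m b 0
    simp only [add_zero, zero_add] at this
    rw [this, hockey]

theorem card_D_ge (m : ℕ) : ∀ b c : ℕ, (m + b + c).choose m ≤ (D m b c).card := by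
  induction m with
  | zero => intro b c; simp [D]
  | succ m ih =>
    intro b c
    rw [card_D_succ', ← total, add_comm]
    apply add_le_add
    · rw [← reflect_sum]
      exact sum_le_sum (fun x _ => ih (b - x) c)
    · calc ∑ k ∈ range c, (m + k).choose m ≤ ∑ k ∈ range c, (m + (b + k)).choose m :=
            sum_le_sum (fun k _ => Nat.choose_le_choose m (by omega))
        _ = ∑ y ∈ range c, (m + b + (c - (y + 1))).choose m := (reflect_sum' m b c).symm
        _ ≤ _ := sum_le_sum (fun y _ => ih b (c - (y + 1)))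

theorem card_D_gt (m : ℕ) (hm : 1 ≤ m) (b c : ℕ) (hb : 1 ≤ b) (hc : 1 ≤ c) :
    (m + 1 + b + c).choose (m + 1) < (D (m + 1) b c).card := by
  rw [card_D_succ', ← total, add_comm]
  apply add_lt_add_of_le_of_lt
  · rw [← reflect_sum]
    exact sum_le_sum (fun x _ => card_D_ge m (b - x) c)
  · calc ∑ k ∈ range c, (m + k).choose m < ∑ k ∈ range c, (m + (b + k)).choose m := by
          apply sum_lt_sum (fun k _ => Nat.choose_le_choose m (by omega))
          refine ⟨0, by rw [mem_range]; omega, ?_⟩
          rw [add_zero, Nat.choose_self]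
          have h1 := Nat.choose_le_choose m (show m + 1 ≤ m + (b + 0) by omega)
          have h2 : (m + 1).choose m = m + 1 := by
            rw [Nat.choose_succ_self_right]
          omega
      _ = ∑ y ∈ range c, (m + b + (c - (y + 1))).choose m := (reflect_sum' m b c).symm
      _ ≤ _ := sum_le_sum (fun y _ => card_D_ge m b (c - (y + 1)))

section group

variable {G : Type*} [AddCommGroup G] {m : ℕ}

theorem val_split (a : Fin m → G) (f : Fin m → ℤ) :
    ∑ i, (f i) • a i = ∑ i, ((f i).toNat : ℤ) • a i - ∑ i, ((- f i).toNat : ℤ) • a i := by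
  rw [← sum_sub_distrib]
  apply sum_congr rfl
  intro i _
  rw [← sub_smul]
  congr 1
  omega

/-- If all nonnegative combinations with coefficient sum at most `b + c` are different, so are all
the combinations in `D m b c`. -/
theorem inj_D (a : Fin m → G) (b c : ℕ)
    (h : Set.InjOn (fun f : Fin m → ℤ => ∑ i, (f i) • a i) (D m (b + c) 0 : Set (Fin m → ℤ))) :
    Set.InjOn (fun f : Fin m → ℤ => ∑ i, (f i) • a i) (D m b c : Set (Fin m → ℤ)) := by
  intro f hf g hg hfg
  rw [mem_coe, mem_D] at hf hg
  have key : (fun i => ((f i).toNat : ℤ) + ((- g i).toNat : ℤ)) =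
      (fun i => ((g i).toNat : ℤ) + ((- f i).toNat : ℤ)) := by
    apply h
    · rw [mem_coe, mem_D]
      constructor
      · have : ∀ i, (((f i).toNat : ℤ) + ((- g i).toNat : ℤ)).toNat =
            (f i).toNat + (- g i).toNat := fun i => by omega
        simp only [this]
        rw [sum_add_distrib]
        omega
      · have : ∀ i, (-(((f i).toNat : ℤ) + ((- g i).toNat : ℤ))).toNat = 0 := fun i => by omega
        simp only [this]
        simp
    · rw [mem_coe, mem_D]
      constructor
      · have : ∀ i, (((g i).toNat : ℤ) + ((- f i).toNat : ℤ)).toNat =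
            (g i).toNat + (- f i).toNat := fun i => by omega
        simp only [this]
        rw [sum_add_distrib]
        omega
      · have : ∀ i, (-(((g i).toNat : ℤ) + ((- f i).toNat : ℤ))).toNat = 0 := fun i => by omega
        simp only [this]
        simp
    · show ∑ i, (((f i).toNat : ℤ) + ((- g i).toNat : ℤ)) • a i =
        ∑ i, (((g i).toNat : ℤ) + ((- f i).toNat : ℤ)) • a i
      have h1 : ∑ i, (f i) • a i = ∑ i, (g i) • a i := hfg
      rw [val_split a f, val_split a g] at h1
      simp only [add_smul, sum_add_distrib]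
      rw [sub_eq_sub_iff_add_eq_add] at h1
      rw [h1]
  funext i
  have h5 : ((f i).toNat : ℤ) + ((- g i).toNat : ℤ) = ((g i).toNat : ℤ) + ((- f i).toNat : ℤ) :=
    congrFun key i
  omega

end group

/-- For all `s ≥ 2` and `m ≥ 2` (in particular for all `s ≥ 4`, `m ≥ 2`) no finite abelian group
of order `(m + s).choose m` has an `s`-basis of size `m`. -/
theorem result (s m : ℕ) (hs : 2 ≤ s) (hm : 2 ≤ m) (G : Type*) [AddCommGroup G] [Fintype G]
    (hn : Fintype.card G = (m + s).choose s) (A : Finset G) (hA : A.card = m) :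
    ¬ ∀ g : G, ∃ l : G → ℕ, ∑ a ∈ A, l a ≤ s ∧ ∑ a ∈ A, l a • a = g := by
  classical
  intro hbasis
  obtain ⟨m, rfl⟩ : ∃ m', m = m' + 1 := ⟨m - 1, by omega⟩
  obtain ⟨e⟩ : Nonempty (Fin (m + 1) ≃ A) := by
    rw [← Fintype.card_eq]
    simp [hA]
  obtain ⟨a, ha⟩ : ∃ a : Fin (m + 1) → G, a = fun i => ((e i : A) : G) := ⟨_, rfl⟩
  have hcard : Fintype.card G = (m + 1 + s).choose (m + 1) := by
    rw [hn]
    exact Nat.choose_symm_add.symm
  -- the nonnegative combinations cover the group
  have himg : (D (m + 1) s 0).image (fun f : Fin (m + 1) → ℤ => ∑ i, (f i) • a i) = univ := by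
    rw [eq_univ_iff_forall]
    intro g
    obtain ⟨l, hl1, hl2⟩ := hbasis g
    rw [mem_image]
    refine ⟨fun i => ((l (a i) : ℕ) : ℤ), ?_, ?_⟩
    · rw [mem_D]
      constructor
      · have h1 : ∑ i, (((l (a i) : ℕ) : ℤ)).toNat = ∑ x ∈ A, l x := by
          simp only [Int.toNat_natCast]
          rw [← sum_coe_sort A, ← Equiv.sum_comp e]
          rw [ha]
        rw [h1]
        exact hl1
      · simp
    · rw [← hl2, ← sum_coe_sort A, ← Equiv.sum_comp e]
      rw [ha]
      exact sum_congr rfl (fun i _ => natCast_zsmul _ _)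
  have hinj : Set.InjOn (fun f : Fin (m + 1) → ℤ => ∑ i, (f i) • a i)
      (D (m + 1) s 0 : Set (Fin (m + 1) → ℤ)) := by
    apply injOn_of_card_image_eq
    rw [himg, card_univ, hcard, card_D_zero]
  obtain ⟨b, c, hb, hc, hbc⟩ : ∃ b c : ℕ, 1 ≤ b ∧ 1 ≤ c ∧ b + c = s := ⟨1, s - 1, by omega⟩
  have hinj2 := inj_D a b c (by rw [hbc]; exact hinj)
  have h1 := card_D_gt m (by omega) b c hb hc
  have h2 : ((D (m + 1) b c).image (fun f : Fin (m + 1) → ℤ => ∑ i, (f i) • a i)).card ≤
      Fintype.card G := card_le_univ _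
  rw [card_image_of_injOn hinj2, hcard, ← hbc, ← add_assoc] at h2
  omega

end Pool.Agent.Results.MP_acd90d_co.NoPerfectBases
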